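import Pool.Agent.H78.UC.Main

/-!
MP_674a48_lc, Q1, for all finite initial parts of the chain: for every `N ≥ 1` there is an uncountably categorical
theory with the countable models `A 0 ≼ A 1 ≼ … ≼ A ω` such that `A 0` has a constructivization and for every `i < N`
the model `A (i + 1)` has a `0^(i+1)`-computable constructivization but no `0^(i)`-computable one.

The definitions are in `Pool.Agent.H78.UC.Defs` (`IsDelta`, `RL`, `rel`, `diagRel`, `diagEq`, `PresentedIn`) and
`Pool.Agent.H80.ArithDefs` (`IsSigma`, `IsPi`).  By Post's theorem `Δ⁰ᵢ₊₁` is the same as computable in `0^(i)`.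
-/

set_option autoImplicit false

namespace Pool.Agent.Results.MP_674a48_lc.FiniteJumpChains

open FirstOrder Cardinal
open Pool.Agent.H78.UC (RL PresentedIn)

/-- For every `N ≥ 1` there are a computable arity function `ar`, a complete theory `T` in the relational language
`RL ar` and models `A j`, `j ∈ {0, 1, …, ω}`, of `T` such that: all models of `T` are infinite; `T` is categorical in
all uncountable cardinals; each `A j` is countable and each countable model of `T` is isomorphic to exactly one `A j`;
`A i` embeds elementarily in `A j` for `i ≤ j`, and `A 0` in every model; `A 0` has a computable constructivization;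
for `i < N` the model `A (i + 1)` has a `0^(i+1)`-computable constructivization but no `0^(i)`-computable one; and all
`A j` with `N ≤ j ≤ ω` have a `0^(N)`-computable constructivization but no `0^(N-1)`-computable one. -/
theorem result (N : ℕ) (hN : 1 ≤ N) :
    ∃ (ar : ℕ → ℕ) (T : (RL ar).Theory) (A : ℕ∞ → T.ModelType), Computable ar ∧ T.IsComplete ∧
      (∀ M : T.ModelType, Infinite M) ∧
      (∀ κ : Cardinal.{0}, ℵ₀ < κ → κ.Categorical T) ∧
      (∀ j, Countable (A j)) ∧
      (∀ M : T.ModelType, Countable M → ∃! j, Nonempty (M ≃[RL ar] A j)) ∧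
      (∀ i j, i ≤ j → Nonempty (A i ↪ₑ[RL ar] A j)) ∧
      (∀ M : T.ModelType, Nonempty (A 0 ↪ₑ[RL ar] M)) ∧
      PresentedIn 0 ar (A 0) ∧
      (∀ i : ℕ, i < N → PresentedIn (i + 1) ar (A (i + 1 : ℕ)) ∧
        ¬ PresentedIn i ar (A (i + 1 : ℕ))) ∧
      ∀ j : ℕ∞, (N : ℕ∞) ≤ j → PresentedIn N ar (A j) ∧ ¬ PresentedIn (N - 1) ar (A j) :=
  Pool.Agent.H78.UC.main N hN

end Pool.Agent.Results.MP_674a48_lc.FiniteJumpChains
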